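import Pool.Agent.Helper82.DG2.Disj2
import Pool.Agent.Helper49.DG2.Count2
import Pool.Agent.Helper82.DG.EdgesD

/-!
# Dark islands: the number of edges
-/

set_option autoImplicit false

namespace Pool.Agent.Helper74.DG2

open Pool.Agent.Helper18.RAC Complex
open Pool.Agent.Helper82.DG (NE SE NW SW Fr CoreH)

variable {V : Type*} {a b : V} {p : ℕ → V} {κ : ℕ → GX → V} {m K M : ℕ}

theorem tri2 (N : ℕ) : 2 * ∑ k ∈ Finset.range N, (N - k) = N ^ 2 + N := by
  induction N with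
  | zero => rfl
  | succ N ih =>
    have h1 : ∑ k ∈ Finset.range (N + 1), (N + 1 - k) = N + 1 + ∑ k ∈ Finset.range N, (N - k) := by
      rw [Finset.sum_range_succ']
      have : ∀ k ∈ Finset.range N, N + 1 - (k + 1) = N - k := fun k _ => by omega
      rw [Finset.sum_congr rfl this, Nat.sub_zero, add_comm]
    rw [h1, mul_add, ih]
    ring

theorem tri1 (N : ℕ) : 2 * ∑ k ∈ Finset.range N, (N - 1 - k) + N = N ^ 2 := by
  induction N with
  | zero => rfl
  | succ N ih =>
    have h1 : ∑ k ∈ Finset.range (N + 1), (N + 1 - 1 - k) =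
        N + ∑ k ∈ Finset.range N, (N - 1 - k) := by
      rw [Finset.sum_range_succ']
      have : ∀ k ∈ Finset.range N, N + 1 - 1 - (k + 1) = N - 1 - k := fun k _ => by omega
      rw [Finset.sum_congr rfl this, Nat.add_sub_cancel, Nat.sub_zero, add_comm]
    rw [h1]
    nlinarith [ih]

/-- the edges of the islands -/
theorem links (κ : ℕ → GX → V) (K M : ℕ) (hM : 5 ≤ M) : ∃ L : Set (Sym2 V),
    2 * L.ncard ≤ 3 * (K * (M - 3) ^ 2) + K * M ∧
    ∀ i < K, ∀ c : GE, c.isl M → s(κ i (c.ends M).1, κ i (c.ends M).2) ∈ L := by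
  classical
  obtain ⟨N, hN⟩ : ∃ N, N = M - 3 := ⟨_, rfl⟩
  rw [← hN]
  set T1 : Finset (Σ _ : ℕ, ℕ) := (Finset.range N).sigma (fun k => Finset.range (N - 1 - k))
    with hT1
  set T2 : Finset (Σ _ : ℕ, ℕ) := (Finset.range N).sigma (fun k => Finset.range (N - k)) with hT2
  have t1 : 2 * T1.card + N = N ^ 2 := by
    rw [hT1, Finset.card_sigma]
    simp only [Finset.card_range]
    exact tri1 N
  have t2 : 2 * T2.card = N ^ 2 + N := by
    rw [hT2, Finset.card_sigma]
    simp only [Finset.card_range]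
    exact tri2 N
  set S1 : Finset (Sym2 V) := (Finset.range K ×ˢ T1).image
    (fun x => s(κ x.1 (GE.ends M (.ul (x.2.1 + 1) (x.2.2 + 1))).1,
      κ x.1 (GE.ends M (.ul (x.2.1 + 1) (x.2.2 + 1))).2)) with hS1
  set S2 : Finset (Sym2 V) := (Finset.range K ×ˢ T2).image
    (fun x => s(κ x.1 (GE.ends M (.lk false (x.2.1 + 1) x.2.2)).1,
      κ x.1 (GE.ends M (.lk false (x.2.1 + 1) x.2.2)).2)) with hS2
  set S3 : Finset (Sym2 V) := (Finset.range K ×ˢ T2).image
    (fun x => s(κ x.1 (GE.ends M (.lk true (x.2.1 + 1) x.2.2)).1,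
      κ x.1 (GE.ends M (.lk true (x.2.1 + 1) x.2.2)).2)) with hS3
  have c1 : S1.card ≤ K * T1.card := by
    refine Finset.card_image_le.trans ?_
    rw [Finset.card_product, Finset.card_range]
  have c2 : S2.card ≤ K * T2.card := by
    refine Finset.card_image_le.trans ?_
    rw [Finset.card_product, Finset.card_range]
  have c3 : S3.card ≤ K * T2.card := by
    refine Finset.card_image_le.trans ?_
    rw [Finset.card_product, Finset.card_range]
  refine ⟨((S1 ∪ (S2 ∪ S3) : Finset (Sym2 V)) : Set (Sym2 V)), ?_, ?_⟩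
  · rw [Set.ncard_coe_finset]
    have d1 := Finset.card_union_le S1 (S2 ∪ S3)
    have d2 := Finset.card_union_le S2 S3
    have e1 : 2 * (K * T1.card) + K * N = K * N ^ 2 := by
      rw [← t1]; ring
    have e2 : 2 * (K * T2.card) = K * N ^ 2 + K * N := by
      have : 2 * (K * T2.card) = K * (2 * T2.card) := by ring
      rw [this, t2]; ring
    have e3 : K * N ≤ K * M := Nat.mul_le_mul_left _ (by omega)
    omega
  · intro i hi c hc
    rw [Finset.mem_coe, Finset.mem_union, Finset.mem_union]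
    cases c with
    | ul k m =>
      have hc' : 1 ≤ k ∧ 1 ≤ m ∧ k + m + 3 ≤ M := hc
      left
      rw [hS1, Finset.mem_image]
      refine ⟨(i, ⟨k - 1, m - 1⟩), ?_, ?_⟩
      · rw [Finset.mem_product, hT1, Finset.mem_sigma]
        simp only [Finset.mem_range]
        omega
      · simp only
        rw [Nat.sub_add_cancel hc'.1, Nat.sub_add_cancel hc'.2.1]
    | lk σ k m =>
      have hc' : 1 ≤ k ∧ k + m + 3 ≤ M := hc
      right
      cases σ
      · left
        rw [hS2, Finset.mem_image]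
        refine ⟨(i, ⟨k - 1, m⟩), ?_, ?_⟩
        · rw [Finset.mem_product, hT2, Finset.mem_sigma]
          simp only [Finset.mem_range]
          omega
        · simp only
          rw [Nat.sub_add_cancel hc'.1]
      · right
        rw [hS3, Finset.mem_image]
        refine ⟨(i, ⟨k - 1, m⟩), ?_, ?_⟩
        · rw [Finset.mem_product, hT2, Finset.mem_sigma]
          simp only [Finset.mem_range]
          omega
        · simp only
          rw [Nat.sub_add_cancel hc'.1]
    | _ => exact absurd hc id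

/-- the vertices which are not in islands of good kites -/
theorem LayD.cover (hl : LayD a b p κ m K M) (Bad : Finset ℕ) (hBad : Bad.card ≤ 450) :
    ∃ Z : Finset V, Z.card ≤ 2 + m + 20 * (K * M) + 900 * M ^ 2 ∧
      ∀ v, v ∈ Z ∨ ∃ i x, i < K ∧ i ∉ Bad ∧ Dk M x ∧ v = κ i (.v x) := by
  classical
  have hM := hl.hM
  set Z0 : Finset V := {a, b} with hZ0
  set Z1 : Finset V := (Finset.range m).image p with hZ1
  set Z2 : Finset V := (Finset.range K ×ˢ ((Finset.univ : Finset Bool) ×ˢ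
    Finset.range (2 * M))).image (fun x => κ x.1 (.v (.P x.2.1 x.2.2))) with hZ2
  set Z3 : Finset V := (Finset.range K ×ˢ ((Finset.univ : Finset Bool) ×ˢ
    Finset.range M)).image (fun x => κ x.1 (.v (.U x.2.1 x.2.2))) with hZ3
  set Z4 : Finset V := (Finset.range K ×ˢ ((Finset.univ : Finset (Bool × Bool)) ×ˢ
    Finset.range (2 * M))).image (fun x => κ x.1 (.v (.C x.2.1.1 x.2.2 x.2.1.2))) with hZ4
  set Z5 : Finset V := (Finset.range K ×ˢ (Finset.univ : Finset Bool)).image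
    (fun x => κ x.1 (.v (.Q x.2))) with hZ5
  set Z6 : Finset V := (Finset.range K ×ˢ Finset.range M).image
    (fun x => κ x.1 (.v (.D x.2 0))) with hZ6
  set Z7 : Finset V := (Finset.range K ×ˢ Finset.range M).image
    (fun x => κ x.1 (.v (.D 0 x.2))) with hZ7
  set Z8 : Finset V := (Finset.range K ×ˢ Finset.range M).image
    (fun x => κ x.1 (.v (.u x.2 (M - 2 - x.2)))) with hZ8
  set Z9 : Finset V := (Bad ×ˢ (Finset.range M ×ˢ Finset.range M)).image
    (fun x => κ x.1 (.v (.u x.2.1 x.2.2))) with hZ9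
  set Z10 : Finset V := (Bad ×ˢ (Finset.range M ×ˢ Finset.range M)).image
    (fun x => κ x.1 (.v (.l x.2.1 x.2.2))) with hZ10
  have c0 : Z0.card ≤ 2 := Finset.card_le_two
  have c1 : Z1.card ≤ m := by simpa using Finset.card_image_le (s := Finset.range m) (f := p)
  have c2 : Z2.card ≤ K * (2 * (2 * M)) := by
    refine Finset.card_image_le.trans ?_
    simp
  have c3 : Z3.card ≤ K * (2 * M) := by
    refine Finset.card_image_le.trans ?_
    simp
  have c4 : Z4.card ≤ K * (4 * (2 * M)) := by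
    refine Finset.card_image_le.trans ?_
    simp
  have c5 : Z5.card ≤ K * 2 := by
    refine Finset.card_image_le.trans ?_
    simp
  have c6 : Z6.card ≤ K * M := by
    refine Finset.card_image_le.trans ?_
    simp
  have c7 : Z7.card ≤ K * M := by
    refine Finset.card_image_le.trans ?_
    simp
  have c8 : Z8.card ≤ K * M := by
    refine Finset.card_image_le.trans ?_
    simp
  have c9 : Z9.card ≤ 450 * M ^ 2 := by
    refine Finset.card_image_le.trans ?_
    rw [Finset.card_product, Finset.card_product, Finset.card_range, pow_two]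
    exact Nat.mul_le_mul_right _ hBad
  have c10 : Z10.card ≤ 450 * M ^ 2 := by
    refine Finset.card_image_le.trans ?_
    rw [Finset.card_product, Finset.card_product, Finset.card_range, pow_two]
    exact Nat.mul_le_mul_right _ hBad
  refine ⟨Z0 ∪ (Z1 ∪ (Z2 ∪ (Z3 ∪ (Z4 ∪ (Z5 ∪ (Z6 ∪ (Z7 ∪ (Z8 ∪ (Z9 ∪ Z10))))))))), ?_, ?_⟩
  · have d1 := Finset.card_union_le Z0
      (Z1 ∪ (Z2 ∪ (Z3 ∪ (Z4 ∪ (Z5 ∪ (Z6 ∪ (Z7 ∪ (Z8 ∪ (Z9 ∪ Z10)))))))))
    have d2 := Finset.card_union_le Z1 (Z2 ∪ (Z3 ∪ (Z4 ∪ (Z5 ∪ (Z6 ∪ (Z7 ∪ (Z8 ∪ (Z9 ∪ Z10))))))))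
    have d3 := Finset.card_union_le Z2 (Z3 ∪ (Z4 ∪ (Z5 ∪ (Z6 ∪ (Z7 ∪ (Z8 ∪ (Z9 ∪ Z10)))))))
    have d4 := Finset.card_union_le Z3 (Z4 ∪ (Z5 ∪ (Z6 ∪ (Z7 ∪ (Z8 ∪ (Z9 ∪ Z10))))))
    have d5 := Finset.card_union_le Z4 (Z5 ∪ (Z6 ∪ (Z7 ∪ (Z8 ∪ (Z9 ∪ Z10)))))
    have d6 := Finset.card_union_le Z5 (Z6 ∪ (Z7 ∪ (Z8 ∪ (Z9 ∪ Z10))))
    have d7 := Finset.card_union_le Z6 (Z7 ∪ (Z8 ∪ (Z9 ∪ Z10)))
    have d8 := Finset.card_union_le Z7 (Z8 ∪ (Z9 ∪ Z10))
    have d9 := Finset.card_union_le Z8 (Z9 ∪ Z10)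
    have d10 := Finset.card_union_le Z9 Z10
    have e1 : K * 5 ≤ K * M := Nat.mul_le_mul_left _ hM
    have e2 : K * (2 * (2 * M)) = 4 * (K * M) := by ring
    have e3 : K * (2 * M) = 2 * (K * M) := by ring
    have e4 : K * (4 * (2 * M)) = 8 * (K * M) := by ring
    rw [e2] at c2
    rw [e3] at c3
    rw [e4] at c4
    omega
  · intro v
    simp only [Finset.mem_union]
    rcases hl.cov v with h | h | ⟨j, hj, rfl⟩ | ⟨i, hi, x, hx, rfl⟩
    · exact Or.inl (Or.inl (by rw [hZ0, h]; simp))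
    · exact Or.inl (Or.inl (by rw [hZ0, h]; simp))
    · exact Or.inl (Or.inr (Or.inl (Finset.mem_image_of_mem _ (Finset.mem_range.2 hj))))
    · cases x with
      | P σ j =>
        refine Or.inl (Or.inr (Or.inr (Or.inl ?_)))
        rw [hZ2, Finset.mem_image]
        refine ⟨(i, σ, j), ?_, rfl⟩
        simp only [Finset.mem_product, Finset.mem_univ, Finset.mem_range, true_and]
        exact ⟨hi, hx⟩
      | U σ j =>
        refine Or.inl (Or.inr (Or.inr (Or.inr (Or.inl ?_))))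
        rw [hZ3, Finset.mem_image]
        refine ⟨(i, σ, j), ?_, rfl⟩
        simp only [Finset.mem_product, Finset.mem_univ, Finset.mem_range, true_and]
        exact ⟨hi, hx⟩
      | C σ j ε =>
        refine Or.inl (Or.inr (Or.inr (Or.inr (Or.inr (Or.inl ?_)))))
        rw [hZ4, Finset.mem_image]
        refine ⟨(i, (σ, ε), j), ?_, rfl⟩
        have hx' : j + 1 < 2 * M := hx
        simp only [Finset.mem_product, Finset.mem_univ, Finset.mem_range, true_and]
        exact ⟨hi, by omega⟩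
      | Q ε =>
        refine Or.inl (Or.inr (Or.inr (Or.inr (Or.inr (Or.inr (Or.inl ?_))))))
        rw [hZ5, Finset.mem_image]
        refine ⟨(i, ε), ?_, rfl⟩
        simp only [Finset.mem_product, Finset.mem_univ, Finset.mem_range, and_true]
        exact hi
      | D c r =>
        have hx' : c < M ∧ r < M ∧ (c = 0 ∨ r = 0) := hx
        rcases hx'.2.2 with h0 | h0
        · subst h0
          refine Or.inl (Or.inr (Or.inr (Or.inr (Or.inr (Or.inr (Or.inr (Or.inr (Or.inl ?_))))))))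
          rw [hZ7, Finset.mem_image]
          refine ⟨(i, r), ?_, rfl⟩
          simp only [Finset.mem_product, Finset.mem_range]
          exact ⟨hi, hx'.2.1⟩
        · subst h0
          refine Or.inl (Or.inr (Or.inr (Or.inr (Or.inr (Or.inr (Or.inr (Or.inl ?_)))))))
          rw [hZ6, Finset.mem_image]
          refine ⟨(i, c), ?_, rfl⟩
          simp only [Finset.mem_product, Finset.mem_range]
          exact ⟨hi, hx'.1⟩
      | u k n =>
        have hx' : 1 ≤ k ∧ 1 ≤ n ∧ k + n + 2 ≤ M := hx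
        by_cases hkn : k + n + 3 ≤ M
        · by_cases hib : i ∈ Bad
          · refine Or.inl (Or.inr (Or.inr (Or.inr (Or.inr (Or.inr (Or.inr (Or.inr (Or.inr
              (Or.inr (Or.inl ?_))))))))))
            rw [hZ9, Finset.mem_image]
            refine ⟨(i, k, n), ?_, rfl⟩
            simp only [Finset.mem_product, Finset.mem_range]
            exact ⟨hib, by omega, by omega⟩
          · exact Or.inr ⟨i, .u k n, hi, hib, ⟨hx'.1, hx'.2.1, hkn⟩, rfl⟩
        · refine Or.inl (Or.inr (Or.inr (Or.inr (Or.inr (Or.inr (Or.inr (Or.inr (Or.inr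
            (Or.inl ?_)))))))))
          rw [hZ8, Finset.mem_image]
          refine ⟨(i, k), ?_, ?_⟩
          · simp only [Finset.mem_product, Finset.mem_range]
            exact ⟨hi, by omega⟩
          · have : M - 2 - k = n := by omega
            simp only [this]
      | l k n =>
        have hx' : 1 ≤ k ∧ 1 ≤ n ∧ k + n + 3 ≤ M := hx
        by_cases hib : i ∈ Bad
        · refine Or.inl (Or.inr (Or.inr (Or.inr (Or.inr (Or.inr (Or.inr (Or.inr (Or.inr
            (Or.inr (Or.inr ?_))))))))))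
          rw [hZ10, Finset.mem_image]
          refine ⟨(i, k, n), ?_, rfl⟩
          simp only [Finset.mem_product, Finset.mem_range]
          exact ⟨hib, by omega, by omega⟩
        · exact Or.inr ⟨i, .l k n, hi, hib, hx', rfl⟩

theorem LayD.edges [Finite V] (hl : LayD a b p κ m K M) {H : SimpleGraph V}
    (hle : GDt a b p κ m M K ≤ H) (hH : ∃ f : V → ℂ, IsRAC H f) :
    2 * H.edgeSet.ncard ≤ 3 * (K * (M - 3) ^ 2) + K * M +
      48 * (2 + m + 20 * (K * M) + 900 * M ^ 2) := by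
  classical
  obtain ⟨f, hf⟩ := hH
  obtain ⟨g, hg1, hg2, hg3⟩ := hf.normalize hl.ab
  have hN : Nm H g a b := ⟨hg1, hg2, hg3, hle (hl.code_adj (c := .ab) trivial)⟩
  obtain ⟨B, hB, hgood⟩ := good_kites hl hle hN
  obtain ⟨Bad, hBad, hBad'⟩ := Pool.Agent.Helper82.DG.card_bad B hB K
  obtain ⟨Z, hZ, hcov⟩ := hl.cover Bad hBad
  obtain ⟨L, hL, hlink⟩ := links κ K M hl.hM
  have hex : ∀ i, ∃ A : Fin 3 → Set ℂ, i < K → i ∉ Bad →
      GoodK H g a b (κ i) M (A 0) (A 1) (A 2) := by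
    intro i
    by_cases h1 : i < K ∧ i ∉ Bad
    · obtain ⟨h2, h3, h4⟩ := hBad' i h1.1 h1.2
      obtain ⟨A₀, A₁, A₂, hA⟩ := hgood i h2 h3 h4
      exact ⟨![A₀, A₁, A₂], fun _ _ => hA⟩
    · exact ⟨fun _ => ∅, fun h2 h3 => absurd ⟨h2, h3⟩ h1⟩
  choose A hA using hex
  -- the cells of one kind are disjoint
  have hdis : ∀ i j t, i < K → i ∉ Bad → j < K → j ∉ Bad → ∀ z, z ∈ A i t → z ∈ A j t →
      i = j := by
    intro i j t h1 h2 h3 h4 z hz hz'
    by_contra hij
    obtain ⟨d0, d1, d2, -, -⟩ := hl.cell_uniq' hle h1 h3 hij (hA i h1 h2) (hA j h3 h4)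
    fin_cases t
    · exact Set.disjoint_left.1 d0 hz hz'
    · exact Set.disjoint_left.1 d1 hz hz'
    · exact Set.disjoint_left.1 d2 hz hz'
  -- the vertices of the islands of good kites
  set S : Set V := {v | ∃ i x, i < K ∧ i ∉ Bad ∧ Dk M x ∧ v = κ i (.v x)} with hS
  set D : Finset V := (Set.toFinite S).toFinset with hD
  have hmemD : ∀ v, v ∈ D ↔ ∃ i x, i < K ∧ i ∉ Bad ∧ Dk M x ∧ v = κ i (.v x) := by
    intro v
    rw [hD, Set.Finite.mem_toFinset]
    exact Iff.rfl
  have key := count_le hg1 D Z (fun v => by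
    rcases hcov v with h1 | h1
    · exact Or.inr h1
    · exact Or.inl ((hmemD v).2 h1)) L (C := 18) ?_ ?_
  · have : 2 * (L.ncard + (6 + 18) * Z.card) ≤ 3 * (K * (M - 3) ^ 2) + K * M +
        48 * (2 + m + 20 * (K * M) + 900 * M ^ 2) := by omega
    omega
  · intro x hx y hy hxy
    obtain ⟨i, x', h1, h2, h3, rfl⟩ := (hmemD x).1 hx
    obtain ⟨j, y', h1', h2', h3', rfl⟩ := (hmemD y).1 hy
    by_cases hij : i = j
    · subst hij
      obtain ⟨c, hc, he⟩ := (hA i h1 h2).dd x' y' h3 h3' hxy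
      rw [he]
      exact hlink i h1 c hc
    · exact absurd hxy (hl.dk_notAdj hle h1 h1' hij (hA i h1 h2) (hA j h1' h2') h3 h3')
  · intro v _
    have hg : ∀ i, ∃ q : GN → Fin 6, i < K → i ∉ Bad → ∀ x y, Dk M x → Dk M y →
        H.Adj (κ i (.v x)) v → H.Adj (κ i (.v y)) v → q x = q y → x = y := by
      intro i
      by_cases h1 : i < K ∧ i ∉ Bad
      · obtain ⟨q, hq⟩ := (hA i h1.1 h1.2).cnt v
        exact ⟨q, fun _ _ => hq⟩
      · exact ⟨fun _ => 0, fun h2 h3 => absurd ⟨h2, h3⟩ h1⟩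
    choose q hq using hg
    have hφ : ∀ x, ∃ φ : Fin 3 × Fin 6, x ∈ D → H.Adj x v → ∃ i y, i < K ∧ i ∉ Bad ∧ Dk M y ∧
        x = κ i (.v y) ∧ g v ∈ A i φ.1 ∧ φ.2 = q i y := by
      intro x
      by_cases h1 : x ∈ D ∧ H.Adj x v
      · obtain ⟨i, y, h2, h3, h4, rfl⟩ := (hmemD x).1 h1.1
        rcases (hA i h2 h3).nbr y v h4 h1.2 with h5 | h5 | h5
        · exact ⟨(0, q i y), fun _ _ => ⟨i, y, h2, h3, h4, rfl, h5, rfl⟩⟩
        · exact ⟨(1, q i y), fun _ _ => ⟨i, y, h2, h3, h4, rfl, h5, rfl⟩⟩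
        · exact ⟨(2, q i y), fun _ _ => ⟨i, y, h2, h3, h4, rfl, h5, rfl⟩⟩
      · exact ⟨(0, 0), fun h2 h3 => absurd ⟨h2, h3⟩ h1⟩
    choose φ hφ using hφ
    have h18 : (Set.univ : Set (Fin 3 × Fin 6)).ncard = 18 := by
      rw [Set.ncard_univ, Nat.card_eq_fintype_card]
      rfl
    rw [← h18]
    refine Set.ncard_le_ncard_of_injOn φ (fun _ _ => Set.mem_univ _) ?_ (Set.toFinite _)
    intro x hx x' hx' hxx
    obtain ⟨i, y, h1, h2, h3, h4, h5, h6⟩ := hφ x hx.1 hx.2
    obtain ⟨i', y', h1', h2', h3', h4', h5', h6'⟩ := hφ x' hx'.1 hx'.2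
    rw [← hxx] at h5' h6'
    have hii := hdis i i' _ h1 h2 h1' h2' _ h5 h5'
    subst hii
    have hyy := hq i h1 h2 y y' h3 h3' (h4 ▸ hx.2) (h4' ▸ hx'.2) (h6.symm.trans h6')
    rw [h4, h4', hyy]

end Pool.Agent.Helper74.DG2
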