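import Pool.Agent.Helper82.DG2.Edges2
import Pool.Agent.Helper49.DG2.LayExists
import Pool.Agent.Helper59.DG2.Draw
import Pool.Agent.Helper82.DG.FinalD

/-!
# Dark islands: the main theorem
-/

set_option autoImplicit false

namespace Pool.Agent.Helper74.DG2

open Pool.Agent.Helper18.RAC Complex

/-- the parameters -/
theorem exists_pars {n M : ℕ} (hM : 5 ≤ M) (h1 : M ^ 3 ≤ n) (h2 : n < (M + 1) ^ 3) :
    ∃ m K : ℕ, K + 2 ≤ m ∧ 2 + m + K * (M ^ 2 + 10 * M + 6) = n ∧ K ≤ M ∧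
      m ≤ M ^ 2 + 11 * M + 8 := by
  obtain ⟨A, hA⟩ : ∃ A, A = M ^ 2 + 10 * M + 6 := ⟨_, rfl⟩
  rw [← hA]
  have hn : 125 ≤ n := by
    have : 5 ^ 3 ≤ M ^ 3 := Nat.pow_le_pow_left hM 3
    omega
  obtain ⟨K, hK⟩ : ∃ K, K = (n - 4) / (A + 1) := ⟨_, rfl⟩
  have k1 : K * (A + 1) ≤ n - 4 := by rw [hK]; exact Nat.div_mul_le_self _ _
  have k2 : n - 4 < (K + 1) * (A + 1) := by
    rw [hK]
    have := Nat.lt_mul_div_succ (n - 4) (show 0 < A + 1 by omega)
    rw [mul_comm] at this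
    exact this
  have k3 : K * (A + 1) = K * A + K := by ring
  have k4 : (K + 1) * (A + 1) = K * A + K + A + 1 := by ring
  have k5 : K ≤ M := by
    by_contra hcon
    push Not at hcon
    have e1 : (M + 1) * (A + 1) ≤ K * (A + 1) := Nat.mul_le_mul_right _ hcon
    have e2 : (M + 1) ^ 3 = (M + 1) * (M ^ 2 + 2 * M + 1) := by ring
    have e3 : (M + 1) * (M ^ 2 + 2 * M + 1) ≤ (M + 1) * (A + 1) :=
      Nat.mul_le_mul_left _ (by omega)
    omega
  refine ⟨n - 2 - K * A, K, by omega, by omega, k5, ?_⟩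
  omega

/-- **Maximal straight-line RAC graphs with `3 n / 2 + O(n^(2/3))` edges.** -/
theorem exists_isle (n : ℕ) : ∃ H : SimpleGraph (Fin n), MaxRAC H ∧
    (H.edgeSet.ncard : ℝ) ≤ 3 / 2 * n + 100000 * (n : ℝ) ^ (2 / 3 : ℝ) := by
  classical
  rcases Nat.lt_or_ge n 125 with hn | hn
  · obtain ⟨H, hH, hle⟩ := Pool.Agent.Helper82.DG.exists_dark' n
    refine ⟨H, hH, ?_⟩
    rcases Nat.eq_zero_or_pos n with h0 | h0
    · subst h0
      simp at hle ⊢
      exact hle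
    · have h5 : (1 : ℝ) ≤ (n : ℝ) ^ (2 / 3 : ℝ) := by
        have := Pool.Agent.Helper82.DG.pow_two_thirds (n := n) (M := 1) (by omega)
        simpa using this
      have h6 : (n : ℝ) < 125 := by exact_mod_cast hn
      linarith
  · obtain ⟨M, hM1, hM2⟩ := Pool.Agent.Helper82.DG.exists_cube n
    have hM : 5 ≤ M := by
      by_contra hcon
      push Not at hcon
      have : (M + 1) ^ 3 ≤ 5 ^ 3 := Nat.pow_le_pow_left (by omega) 3
      omega
    obtain ⟨m, K, e1, e2, e3, e4⟩ := exists_pars hM hM1 hM2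
    obtain ⟨a, b, p, κ, hl⟩ := exists_layD e1 hM e2
    obtain ⟨H, hle, hmax⟩ := exists_max hl.rac
    refine ⟨H, hmax, ?_⟩
    have h1 := hl.edges hle hmax.1
    have h2 : 2 * H.edgeSet.ncard ≤ 3 * n + 200000 * M ^ 2 := by
      have d1 : K * (M - 3) ^ 2 ≤ n := by
        have q1 : (M - 3) ^ 2 ≤ M ^ 2 := Nat.pow_le_pow_left (by omega) 2
        have q2 : K * (M - 3) ^ 2 ≤ K * (M ^ 2 + 10 * M + 6) := Nat.mul_le_mul_left _ (by omega)
        omega
      have d2 : K * M ≤ M ^ 2 := by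
        rw [pow_two]
        exact Nat.mul_le_mul_right _ e3
      have d3 : 5 * M ≤ M ^ 2 := by
        rw [pow_two]
        exact Nat.mul_le_mul_right _ hM
      omega
    have h3 : 2 * (H.edgeSet.ncard : ℝ) ≤ 3 * n + 200000 * (M : ℝ) ^ 2 := by exact_mod_cast h2
    have h4 := Pool.Agent.Helper82.DG.pow_two_thirds hM1
    linarith

end Pool.Agent.Helper74.DG2
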