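import Pool.Agent.Helper74.DG2.Part3
import Pool.Agent.Helper82.DG.GoodD
import Pool.Agent.Helper18.DG2.Win2
import Pool.Agent.Helper49.DG2.KCell
import Pool.Agent.Helper49.DG2.GoodK

/-!
# Dark islands: good kites
-/

set_option autoImplicit false

namespace Pool.Agent.Helper74.DG2

open Pool.Agent.Helper18.RAC Complex
open Pool.Agent.Helper82.DG (NE SE NW SW Fr CoreH)

variable {V : Type*}

section

variable {a b : V} {p : ℕ → V} {κ : ℕ → GX → V} {m K M : ℕ}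

theorem LayD.code_ne (hl : LayD a b p κ m K M) {c : Code} (hc : c.valid m) :
    (c.ends a b p).1 ≠ (c.ends a b p).2 := by
  cases c with
  | ab => exact hl.ab
  | A j => exact (hl.pa j hc).symm
  | B j => exact (hl.pb j hc).symm
  | I i j =>
    intro h1
    have h2 := hl.pinj i (hc.1.trans hc.2.2) j hc.2.2 h1
    have h3 := hc.1
    omega

theorem LayD.code_adj (hl : LayD a b p κ m K M) {c : Code} (hc : c.valid m) {t : ℕ} :
    (GDt a b p κ m M t).Adj (c.ends a b p).1 (c.ends a b p).2 := by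
  unfold GDt
  rw [SimpleGraph.fromEdgeSet_adj]
  exact ⟨Or.inl ⟨c, hc, rfl⟩, hl.code_ne hc⟩

theorem LayD.core' (hl : LayD a b p κ m K M) : Core (GDt a b p κ m M K) a b p m where
  ha := fun i hi => hl.code_adj (c := .A i) hi
  hb := fun i hi => hl.code_adj (c := .B i) hi
  inj := hl.pinj
  h1 := fun i hi => hl.code_adj (c := .I i (i + 1)) ⟨by omega, by omega, hi⟩
  h2 := fun i hi => hl.code_adj (c := .I i (i + 2)) ⟨by omega, by omega, hi⟩

theorem LayD.nX (hl : LayD a b p κ m K M) {i : ℕ} (hi : i < K) {x : GN} (hx : x.ok M)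
    (σ : Bool) : κ i (.v x) ≠ κ i (.X σ) := by
  have hm := hl.hm
  obtain ⟨h1, h2, h3⟩ := hl.nc i hi x hx
  cases σ
  · rw [hl.kN i hi]
    split_ifs
    · exact h2
    · exact h1
  · rw [hl.kE i hi]
    exact h3 _ (by omega)

theorem LayD.nY (hl : LayD a b p κ m K M) {i : ℕ} (hi : i < K) {x : GN} (hx : x.ok M)
    (σ : Bool) : κ i (.v x) ≠ κ i (.Y σ) := by
  have hm := hl.hm
  obtain ⟨h1, h2, h3⟩ := hl.nc i hi x hx
  cases σ
  · rw [hl.kS i hi]
    exact h3 _ (by omega)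
  · rw [hl.kW i hi]
    exact h3 _ (by omega)

/-- the names of the ends of a valid code are used -/
theorem GE.ends_ok {M : ℕ} (hM : 2 ≤ M) {c : GE} (hc : c.valid M) :
    (c.ends M).1.ok M ∧ (c.ends M).2.ok M := by
  cases c with
  | yp σ j => exact ⟨trivial, hc⟩
  | xu σ c => exact ⟨trivial, hc⟩
  | xp σ => exact ⟨trivial, show 2 * M - 1 < 2 * M by omega⟩
  | up σ c =>
    have hc' : c < M := hc
    exact ⟨hc, show 2 * c < 2 * M by omega⟩
  | pd σ c =>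
    have hc' : c < M := hc
    refine ⟨show 2 * c + 1 < 2 * M by omega, ?_⟩
    cases σ
    · exact (⟨hc', by omega, Or.inr rfl⟩ : c < M ∧ 0 < M ∧ (c = 0 ∨ 0 = 0))
    · exact (⟨by omega, hc', Or.inl rfl⟩ : 0 < M ∧ c < M ∧ (0 = 0 ∨ c = 0))
  | dd σ c =>
    have hc' : c + 1 < M := hc
    cases σ
    · exact ⟨(⟨by omega, by omega, Or.inr rfl⟩ : c < M ∧ 0 < M ∧ (c = 0 ∨ 0 = 0)),
        (⟨hc', by omega, Or.inr rfl⟩ : c + 1 < M ∧ 0 < M ∧ (c + 1 = 0 ∨ 0 = 0))⟩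
    · exact ⟨(⟨by omega, by omega, Or.inl rfl⟩ : 0 < M ∧ c < M ∧ (0 = 0 ∨ c = 0)),
        (⟨by omega, hc', Or.inl rfl⟩ : 0 < M ∧ c + 1 < M ∧ (0 = 0 ∨ c + 1 = 0))⟩
  | pp σ j =>
    have hc' : j + 1 < 2 * M := hc
    exact ⟨show j < 2 * M by omega, hc'⟩
  | pc σ j ε =>
    have hc' : j + 1 < 2 * M := hc
    exact ⟨show j < 2 * M by omega, hc'⟩
  | pc' σ j ε => exact ⟨hc, hc⟩
  | cc σ j => exact ⟨hc, hc⟩
  | uu => exact ⟨show M - 1 < M by omega, show M - 1 < M by omega⟩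
  | uq σ ε => exact ⟨show M - 1 < M by omega, trivial⟩
  | qq => exact ⟨trivial, trivial⟩
  | dr σ ε =>
    refine ⟨?_, ?_⟩
    · cases σ
      · exact (⟨by omega, by omega, Or.inr rfl⟩ : M - 1 < M ∧ 0 < M ∧ (M - 1 = 0 ∨ 0 = 0))
      · exact (⟨by omega, by omega, Or.inl rfl⟩ : 0 < M ∧ M - 1 < M ∧ (0 = 0 ∨ M - 1 = 0))
    · cases ε
      · exact (by omega : 0 < M)
      · exact (by omega : 1 < M)
  | ul k m =>
    have hc' : 1 ≤ k ∧ 1 ≤ m ∧ k + m + 3 ≤ M := hc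
    exact ⟨(⟨hc'.1, hc'.2.1, by omega⟩ : 1 ≤ k ∧ 1 ≤ m ∧ k + m + 2 ≤ M), hc'⟩
  | lk σ k m =>
    have hc' : 1 ≤ k ∧ k + m + 3 ≤ M := hc
    cases σ
    · exact ⟨GN.lo_ok (Or.inl hc'.1) hc'.2,
        (⟨hc'.1, by omega, by omega⟩ : 1 ≤ k ∧ 1 ≤ m + 1 ∧ k + (m + 1) + 2 ≤ M)⟩
    · exact ⟨GN.lo_ok (Or.inr hc'.1) (by omega),
        (⟨by omega, hc'.1, by omega⟩ : 1 ≤ m + 1 ∧ 1 ≤ k ∧ (m + 1) + k + 2 ≤ M)⟩

theorem GN.lo_ne_u (M k m k' m' : ℕ) : GN.lo M k m ≠ .u k' m' := by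
  unfold GN.lo
  split_ifs <;> simp

/-- the second end of a code is the name of a vertex of the grid, different from the first end -/
theorem GE.ends_ne {M : ℕ} (hM : 2 ≤ M) {c : GE} : (c.ends M).1 ≠ (c.ends M).2 ∧
    ∃ x, (c.ends M).2 = .v x := by
  cases c with
  | pd σ c => cases σ <;> exact ⟨by simp [GE.ends, GN.D'], _, rfl⟩
  | dd σ c => cases σ <;> exact ⟨by simp [GE.ends, GN.D'], _, rfl⟩
  | dr σ ε => cases σ <;> cases ε <;> exact ⟨by simp [GE.ends, GN.D'], _, rfl⟩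
  | lk σ k m =>
    refine ⟨?_, _, rfl⟩
    cases σ
    · intro h
      simp only [GE.ends, GN.lo', GN.u', cond_false, GX.v.injEq] at h
      exact GN.lo_ne_u _ _ _ _ _ h
    · intro h
      simp only [GE.ends, GN.lo', GN.u', cond_true, GX.v.injEq] at h
      exact GN.lo_ne_u _ _ _ _ _ h
  | _ => exact ⟨by simp [GE.ends], _, rfl⟩

theorem LayD.grid_ne (hl : LayD a b p κ m K M) {i : ℕ} (hi : i < K) {c : GE} (hc : c.valid M) :
    κ i (c.ends M).1 ≠ κ i (c.ends M).2 := by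
  have hM := hl.hM
  obtain ⟨h1, h2⟩ := GE.ends_ok (by omega) hc
  obtain ⟨h3, y, hy⟩ := GE.ends_ne (M := M) (c := c) (by omega)
  rw [hy] at h2 h3 ⊢
  rcases hx : (c.ends M).1 with σ | σ | x
  · exact (hl.nX hi h2 σ).symm
  · exact (hl.nY hi h2 σ).symm
  · rw [hx] at h1 h3
    intro h4
    exact h3 (by rw [(hl.kinj i hi i hi x y h1 h2 h4).2])

theorem LayD.grid_adj (hl : LayD a b p κ m K M) {i t : ℕ} (hi : i < K) (hit : i < t) {c : GE}
    (hc : c.valid M) : (GDt a b p κ m M t).Adj (κ i (c.ends M).1) (κ i (c.ends M).2) := by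
  unfold GDt
  rw [SimpleGraph.fromEdgeSet_adj]
  exact ⟨Or.inr ⟨i, hit, c, hc, rfl⟩, hl.grid_ne hi hc⟩

theorem LayD.grid' (hl : LayD a b p κ m K M) : ∀ i < K, HasGrid (GDt a b p κ m M K) (κ i) M :=
  fun i hi =>
  { hM := hl.hM
    adj := fun _ hc => hl.grid_adj hi hi hc
    inj := fun x y hx hy h => (hl.kinj i hi i hi x y hx hy h).2
    nX := fun _ σ hx => hl.nX hi hx σ
    nY := fun _ σ hx => hl.nY hi hx σ }

theorem good_aux (hl : LayD a b p κ m K M) {H : SimpleGraph V} (hle : GDt a b p κ m M K ≤ H)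
    {f : V → ℂ} (h : Nm H f a b) {i : ℕ} (hi : 19 ≤ i) (hiK : i + 20 ≤ K) {ε : ℤ}
    (hε : ε = 1 ∨ ε = -1) (him : ∀ j, i ≤ j + 19 → j ≤ i + 21 → 0 < (f (p j)).im)
    (hn : ∀ s : ℤ, -20 ≤ s → s ≤ 19 → Nest (f (p ((i : ℤ) + 1 + ε * s).toNat))
      (f (p ((i : ℤ) + 1 + ε * (s + 1)).toNat))) :
    ∃ A₀ A₁ A₂, GoodK H f a b (κ i) M A₀ A₁ A₂ := by
  have hm := hl.hm
  have hcore := hl.core'
  set w : ℤ → V := fun s => p ((i : ℤ) + 1 + ε * s).toNat with hw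
  -- indices
  have hidx : ∀ s : ℤ, -20 ≤ s → s ≤ 20 → ((i : ℤ) + 1 + ε * s).toNat < m ∧
      i ≤ ((i : ℤ) + 1 + ε * s).toNat + 19 ∧ ((i : ℤ) + 1 + ε * s).toNat ≤ i + 21 := by
    intro s e1 e2
    rcases hε with rfl | rfl <;> omega
  have hG1 : ∀ s : ℤ, -20 ≤ s → s ≤ 19 → H.Adj (w s) (w (s + 1)) := by
    intro s e1 e2
    simp only [hw]
    rcases hε with rfl | rfl
    · have e3 : ((i : ℤ) + 1 + 1 * (s + 1)).toNat = ((i : ℤ) + 1 + 1 * s).toNat + 1 := by omega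
      rw [e3]
      exact hle (hcore.h1 _ (by omega))
    · have e3 : ((i : ℤ) + 1 + -1 * s).toNat = ((i : ℤ) + 1 + -1 * (s + 1)).toNat + 1 := by omega
      rw [e3]
      exact (hle (hcore.h1 _ (by omega))).symm
  have hG2 : ∀ s : ℤ, -20 ≤ s → s ≤ 18 → H.Adj (w s) (w (s + 2)) := by
    intro s e1 e2
    simp only [hw]
    rcases hε with rfl | rfl
    · have e3 : ((i : ℤ) + 1 + 1 * (s + 2)).toNat = ((i : ℤ) + 1 + 1 * s).toNat + 2 := by omega
      rw [e3]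
      exact hle (hcore.h2 _ (by omega))
    · have e3 : ((i : ℤ) + 1 + -1 * s).toNat = ((i : ℤ) + 1 + -1 * (s + 2)).toNat + 2 := by omega
      rw [e3]
      exact (hle (hcore.h2 _ (by omega))).symm
  obtain ⟨q, hwin⟩ := h.winR (w := w) (R := 20)
    (fun s e1 e2 => him _ (hidx s e1 e2).2.1 (hidx s e1 e2).2.2)
    (fun s e1 e2 => (hle (hcore.ha _ (hidx s e1 e2).1)).symm)
    (fun s e1 e2 => (hle (hcore.hb _ (hidx s e1 e2).1)).symm)
    (fun s e1 e2 => hn s e1 (by omega))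
    (fun s e1 e2 => hG1 s e1 (by omega))
    (fun s e1 e2 => by
      have := hG2 (s - 1) (by omega) (by omega)
      have e3 : s - 1 + 2 = s + 1 := by ring
      rwa [e3] at this)
  have hgrid := (hl.grid' i (by omega)).mono hle
  have hE : κ i (.X true) = w ε := by
    rw [hl.kE i (by omega)]
    simp only [hw]
    congr 1
    rcases hε with rfl | rfl <;> omega
  have hW : κ i (.Y true) = w (-ε) := by
    rw [hl.kW i (by omega)]
    simp only [hw]
    congr 1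
    rcases hε with rfl | rfl <;> omega
  have hS : κ i (.Y false) = w 0 := by
    rw [hl.kS i (by omega)]
    simp only [hw]
    congr 1
    omega
  obtain ⟨X, Y, E, F, a', b', hfr, hgd, hco⟩ := win_gdraw hwin hgrid hε hE hW hS
    (by
      rw [hl.kN i (by omega)]
      split_ifs
      · exact Or.inr rfl
      · exact Or.inl rfl)
    (by
      intro s s' h1 h2 h3 h4 heq
      have k1 := hidx s h1 h2
      have k2 := hidx s' h3 h4
      have := hl.pinj _ k1.1 _ k2.1 heq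
      rcases hε with rfl | rfl <;> omega)
    (by
      intro x hx
      obtain ⟨h1, h2, h3⟩ := hl.nc i (by omega) x hx
      exact ⟨h1, h2, fun s e1 e2 => h3 _ (hidx s e1 e2).1⟩)
  exact gdraw_good h.rac hfr hgd hco

theorem good_kites (hl : LayD a b p κ m K M) {H : SimpleGraph V}
    (hle : GDt a b p κ m M K ≤ H) {g : V → ℂ} (hg : Nm H g a b) :
    ∃ B : Finset ℕ, B.card ≤ 10 ∧ ∀ i, 19 ≤ i → i + 20 ≤ K →
      (∀ j, i ≤ j + 19 → j ≤ i + 21 → j ∉ B) → ∃ A₀ A₁ A₂, GoodK H g a b (κ i) M A₀ A₁ A₂ := by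
  have hm := hl.hm
  have hcore : Core H a b p m :=
    ⟨fun i hi => hle (hl.core'.ha i hi), fun i hi => hle (hl.core'.hb i hi), hl.pinj,
      fun i hi => hle (hl.core'.h1 i hi), fun i hi => hle (hl.core'.h2 i hi)⟩
  obtain ⟨B, hB, hwin⟩ := Pool.Agent.Helper82.DG.windows hg hcore
  refine ⟨B, hB, ?_⟩
  intro i hi hiK hiB
  obtain ⟨g', hgg, hg', him, hmono⟩ := hwin (i - 19) 40 (by omega) (by omega)
    (fun j h1 h2 => hiB j (by omega) (by omega))
  have key : ∃ A₀ A₁ A₂, GoodK H g' a b (κ i) M A₀ A₁ A₂ := by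
    rcases hmono with hmono | hmono
    · refine good_aux hl hle hg' hi hiK (ε := 1) (Or.inl rfl)
        (fun j h1 h2 => him j (by omega) (by omega)) ?_
      intro s e1 e2
      have e3 : ((i : ℤ) + 1 + 1 * (s + 1)).toNat = ((i : ℤ) + 1 + 1 * s).toNat + 1 := by omega
      rw [e3]
      exact hmono _ (by omega) (by omega)
    · refine good_aux hl hle hg' hi hiK (ε := -1) (Or.inr rfl)
        (fun j h1 h2 => him j (by omega) (by omega)) ?_
      intro s e1 e2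
      have e3 : ((i : ℤ) + 1 + -1 * s).toNat = ((i : ℤ) + 1 + -1 * (s + 1)).toNat + 1 := by omega
      rw [e3]
      exact hmono _ (by omega) (by omega)
  rcases hgg with rfl | rfl
  · exact key
  · obtain ⟨A₀, A₁, A₂, hA⟩ := key
    exact hA.conj

end

end Pool.Agent.Helper74.DG2
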